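import Mathlib

set_option autoImplicit false

namespace Pool.Agent.Work.MP_70096d_gt

open Set Topology

universe u

/-- `K` is saturated for the topology `t`: it is an intersection of `t`-open sets. -/
def Saturated {X : Type u} (t : TopologicalSpace X) (K : Set X) : Prop :=
  ∃ F : Set (Set X), (∀ U ∈ F, IsOpen[t] U) ∧ K = ⋂₀ F

/-- The topology `t` is well-filtered: it is T0, and whenever `F` is a (nonempty) filtered family
of compact saturated sets and `U` is an open set containing the intersection of `F`, some member
of `F` is contained in `U`. -/
def WellFiltered {X : Type u} (t : TopologicalSpace X) : Prop :=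
  @T0Space X t ∧
    ∀ F : Set (Set X), F.Nonempty → DirectedOn (fun A B => B ⊆ A) F →
      (∀ K ∈ F, @IsCompact X t K ∧ Saturated t K) →
      ∀ U : Set X, IsOpen[t] U → ⋂₀ F ⊆ U → ∃ K ∈ F, K ⊆ U

/-- `P` is a dcpo: every nonempty directed subset has a supremum. -/
def IsDcpo (P : Type u) [PartialOrder P] : Prop :=
  ∀ D : Set P, D.Nonempty → DirectedOn (· ≤ ·) D → ∃ s, IsLUB D s

/-- The topology `t` is compatible with the order of `P`: the closure of each point `x` is the
principal ideal of `x`. -/
def Compatible {P : Type u} [PartialOrder P] (t : TopologicalSpace P) : Prop :=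
  ∀ x : P, @closure P t {x} = Set.Iic x

/-- The topology `t` is sober: it is T0 and every irreducible closed set is the closure of a
point. -/
def Sober {X : Type u} (t : TopologicalSpace X) : Prop :=
  @T0Space X t ∧ ∀ S : Set X, @IsIrreducible X t S → IsClosed[t] S → ∃ x, @closure X t {x} = S

end Pool.Agent.Work.MP_70096d_gt
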