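import Mathlib
import Pool.Agent.Work.MP_70096d_gt.Defs

set_option autoImplicit false

namespace Pool.Agent.Work.MP_70096d_gt

open Set Topology

universe u v w

section Helpers

variable {X : Type u} [tX : TopologicalSpace X]

theorem saturated_nhdsKer (s : Set X) : Saturated tX (nhdsKer s) :=
  ⟨{t : Set X | IsOpen t ∧ s ⊆ t}, fun _ h => h.1, nhdsKer_def s⟩

theorem Saturated.mem_of_specializes {K : Set X} (hK : Saturated tX K) {x y : X}
    (h : x ⤳ y) (hy : y ∈ K) : x ∈ K := by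
  obtain ⟨F, hF, rfl⟩ := hK
  intro U hU
  exact h.mem_open (hF U hU) (hy U hU)

theorem compact_inter_sInter {L : Set X} (hL : IsCompact L) (C : Set (Set X)) (hne : C.Nonempty)
    (hd : DirectedOn (fun A B => B ⊆ A) C) (hc : ∀ A ∈ C, IsClosed A)
    (hmeet : ∀ A ∈ C, (L ∩ A).Nonempty) : (L ∩ ⋂₀ C).Nonempty := by
  by_contra hcon
  rw [Set.not_nonempty_iff_eq_empty, Set.sInter_eq_iInter] at hcon
  have : Nonempty C := hne.to_subtype
  obtain ⟨i, hi⟩ := hL.elim_directed_family_closed (fun i : C => (i : Set X))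
    (fun i => hc i i.2) hcon (by
      intro a b
      obtain ⟨c, hc, hac, hbc⟩ := hd a.1 a.2 b.1 b.2
      exact ⟨⟨c, hc⟩, hac, hbc⟩)
  exact (hmeet i i.2).ne_empty hi

end Helpers

section Core

/-- The property of well-filtered spaces used in the proof. -/
def WF (X : Type u) [TopologicalSpace X] : Prop :=
  ∀ F : Set (Set X), F.Nonempty → DirectedOn (fun A B => B ⊆ A) F →
      (∀ K ∈ F, IsCompact K ∧ Saturated (inferInstance : TopologicalSpace X) K) →
      ∀ U : Set X, IsOpen U → ⋂₀ F ⊆ U → ∃ K ∈ F, K ⊆ U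

variable {X : Type u} {Y : Type v} {Z : Type w}
  [tX : TopologicalSpace X] [tY : TopologicalSpace Y] [tZ : TopologicalSpace Z]

/-- One coordinate of the argument: if `A` is minimal among the closed sets that meet all the
members of the filtered family `F` and avoid `U`, then the image of `A` under a continuous map into
a well-filtered space has the closure of a point as its closure, and that point
lies in all saturations of the images of `A ∩ K`. -/
theorem exists_top (hX : WF X) (p : Z → X) (hp : Continuous p)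
    (F : Set (Set Z)) (hne : F.Nonempty) (hd : DirectedOn (fun A B => B ⊆ A) F)
    (hF : ∀ K ∈ F, IsCompact K) (A : Set Z) (hA : IsClosed A)
    (hmeet : ∀ K ∈ F, (A ∩ K).Nonempty) :
    ∃ x ∈ closure (p '' A), ∀ K ∈ F, x ∈ nhdsKer (p '' (A ∩ K)) := by
  by_contra hcon
  push Not at hcon
  obtain ⟨L, hL, hLU⟩ := hX ((fun K => nhdsKer (p '' (A ∩ K))) '' F) (hne.image _) (by
      rintro _ ⟨K, hK, rfl⟩ _ ⟨K', hK', rfl⟩
      obtain ⟨K'', hK'', h1, h2⟩ := hd K hK K' hK'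
      exact ⟨_, ⟨K'', hK'', rfl⟩, nhdsKer_mono (image_mono (inter_subset_inter_right _ h1)),
        nhdsKer_mono (image_mono (inter_subset_inter_right _ h2))⟩)
    (by
      rintro _ ⟨K, hK, rfl⟩
      exact ⟨(((hF K hK).inter_left hA).image hp).nhdsKer, saturated_nhdsKer _⟩)
    (closure (p '' A))ᶜ isClosed_closure.isOpen_compl (by
      intro x hx hxc
      obtain ⟨K, hK, hxK⟩ := hcon x hxc
      exact hxK (hx _ ⟨K, hK, rfl⟩))
  obtain ⟨K, hK, rfl⟩ := hL
  obtain ⟨z, hz⟩ := hmeet K hK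
  exact hLU (subset_nhdsKer ⟨z, hz, rfl⟩) (subset_closure ⟨z, hz.1, rfl⟩)

theorem subset_closure_of_mem (p : Z → X) (hp : Continuous p)
    (F : Set (Set Z)) (A : Set Z) (hA : IsClosed A)
    (hmin : ∀ B : Set Z, IsClosed B → B ⊆ A → (∀ K ∈ F, (B ∩ K).Nonempty) → A ⊆ B)
    (x : X) (hx : ∀ K ∈ F, x ∈ nhdsKer (p '' (A ∩ K))) : ∀ z ∈ A, x ⤳ p z := by
  have h := hmin (A ∩ p ⁻¹' (closure {x})) (hA.inter (isClosed_closure.preimage hp))
    inter_subset_left (by
      intro K hK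
      obtain ⟨_, ⟨z, hz, rfl⟩, hxz⟩ := mem_nhdsKer_iff_specializes.1 (hx K hK)
      exact ⟨z, ⟨hz.1, specializes_iff_mem_closure.1 hxz⟩, hz.2⟩)
  intro z hz
  exact specializes_iff_mem_closure.2 (h hz).2

/-- The topological core of the product theorem. -/
theorem core (hX : WF X) (hY : WF Y) (p : Z → X) (q : Z → Y) (m : X → Y → Z)
    (hp : Continuous p) (hq : Continuous q)
    (hm1 : ∀ x, Continuous (fun y => m x y)) (hm2 : ∀ y, Continuous (fun x => m x y))
    (hmz : ∀ z, m (p z) (q z) = z)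
    (H : ∀ (A : Set Z) (L : Set X), IsClosed A → IsCompact L → IsClosed {y | ∃ x ∈ L, m x y ∈ A}) :
    WF Z := by
  intro F hne hd hF U hU hFU
  by_contra hcon
  push Not at hcon
  -- a minimal closed set
  obtain ⟨A, hAmin⟩ : ∃ A, Minimal
      (· ∈ {A : Set Z | IsClosed A ∧ A ⊆ Uᶜ ∧ ∀ K ∈ F, (A ∩ K).Nonempty}) A := by
    apply zorn_superset
    intro c hc hchain
    rcases c.eq_empty_or_nonempty with rfl | hcne
    · refine ⟨Uᶜ, ⟨hU.isClosed_compl, subset_rfl, fun K hK => ?_⟩, by simp⟩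
      obtain ⟨z, hz, hzU⟩ := Set.not_subset.1 (hcon K hK)
      exact ⟨z, hzU, hz⟩
    · refine ⟨⋂₀ c, ⟨isClosed_sInter fun B hB => (hc hB).1, ?_, fun K hK => ?_⟩,
        fun B hB => sInter_subset_of_mem hB⟩
      · obtain ⟨B, hB⟩ := hcne
        exact (sInter_subset_of_mem hB).trans (hc hB).2.1
      · rw [inter_comm]
        refine compact_inter_sInter (hF K hK).1 c hcne ?_ (fun B hB => (hc hB).1)
          (fun B hB => by rw [inter_comm]; exact (hc hB).2.2 K hK)
        intro a ha b hb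
        rcases hchain.total ha hb with h | h
        · exact ⟨a, ha, subset_rfl, h⟩
        · exact ⟨b, hb, h, subset_rfl⟩
  obtain ⟨hA, hAU, hAmeet⟩ := hAmin.1
  have hmin : ∀ B : Set Z, IsClosed B → B ⊆ A → (∀ K ∈ F, (B ∩ K).Nonempty) → A ⊆ B :=
    fun B hB hBA hBm => hAmin.2 ⟨hB, hBA.trans hAU, hBm⟩ hBA
  have hFc : ∀ K ∈ F, IsCompact K := fun K hK => (hF K hK).1
  obtain ⟨x, hxcl, hx⟩ := exists_top hX p hp F hne hd hFc A hA hAmeet
  obtain ⟨y, hycl, hy⟩ := exists_top hY q hq F hne hd hFc A hA hAmeet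
  have hxA := subset_closure_of_mem p hp F A hA hmin x hx
  have hyA := subset_closure_of_mem q hq F A hA hmin y hy
  -- the pair of generic points is not in `A`
  have hxy : m x y ∉ A := by
    intro hmem
    refine hAU hmem (hFU ?_)
    intro K hK
    obtain ⟨z, hzA, hzK⟩ := hAmeet K hK
    have h1 : m x y ⤳ m (p z) y := (hxA z hzA).map (hm2 y)
    have h2 : m (p z) y ⤳ m (p z) (q z) := (hyA z hzA).map (hm1 (p z))
    rw [hmz] at h2
    exact (hF K hK).2.mem_of_specializes (h1.trans h2) hzK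
  -- step 3
  obtain ⟨K₀, hK₀, hK₀A⟩ : ∃ K₀ ∈ F, ∀ z ∈ A ∩ K₀, m x (q z) ∉ A := by
    by_contra hcon3
    push Not at hcon3
    have hYcl : IsClosed {b | m x b ∈ A} := hA.preimage (hm1 x)
    have h := hmin (A ∩ q ⁻¹' {b | m x b ∈ A}) (hA.inter (hYcl.preimage hq)) inter_subset_left (by
      intro K hK
      obtain ⟨z, hz, hzA⟩ := hcon3 K hK
      exact ⟨z, ⟨hz.1, hzA⟩, hz.2⟩)
    have h' : q '' A ⊆ {b | m x b ∈ A} := by
      rintro _ ⟨z, hz, rfl⟩
      exact (h hz).2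
    exact hxy (closure_minimal h' hYcl hycl)
  -- step 4
  have h4 : ∀ z ∈ A ∩ K₀, ∃ K ∈ F, ∀ a ∈ nhdsKer (p '' (A ∩ K)), m a (q z) ∉ A := by
    intro z hz
    obtain ⟨L, hL, hLU⟩ := hX ((fun K => nhdsKer (p '' (A ∩ K))) '' F) (hne.image _) (by
        rintro _ ⟨K, hK, rfl⟩ _ ⟨K', hK', rfl⟩
        obtain ⟨K'', hK'', h1, h2⟩ := hd K hK K' hK'
        exact ⟨_, ⟨K'', hK'', rfl⟩, nhdsKer_mono (image_mono (inter_subset_inter_right _ h1)),
          nhdsKer_mono (image_mono (inter_subset_inter_right _ h2))⟩)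
      (by
        rintro _ ⟨K, hK, rfl⟩
        exact ⟨(((hFc K hK).inter_left hA).image hp).nhdsKer, saturated_nhdsKer _⟩)
      {a | m a (q z) ∈ A}ᶜ (hA.preimage (hm2 (q z))).isOpen_compl (by
        intro x' hx' hx'A
        have hx'' : ∀ K ∈ F, x' ∈ nhdsKer (p '' (A ∩ K)) := fun K hK => hx' _ ⟨K, hK, rfl⟩
        have h1 := subset_closure_of_mem p hp F A hA hmin x' hx''
        have h2 : x' ⤳ x := by
          rw [specializes_iff_mem_closure]
          refine closure_minimal ?_ isClosed_closure hxcl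
          rintro _ ⟨z', hz', rfl⟩
          exact specializes_iff_mem_closure.1 (h1 z' hz')
        have h3 : m x' (q z) ⤳ m x (q z) := h2.map (hm2 (q z))
        exact hK₀A z hz (h3.mem_closed hA hx'A))
    obtain ⟨K, hK, rfl⟩ := hL
    exact ⟨K, hK, fun a ha => hLU ha⟩
  -- step 5
  let V : F → Set Y := fun K => {b | ∃ a ∈ nhdsKer (p '' (A ∩ K.1)), m a b ∈ A}ᶜ
  have : Nonempty F := hne.to_subtype
  obtain ⟨⟨K₁, hK₁⟩, hK₁V⟩ := (((hFc K₀ hK₀).inter_left hA).image hq).elim_directed_cover V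
    (fun K => (H A _ hA (((hFc K.1 K.2).inter_left hA).image hp).nhdsKer).isOpen_compl)
    (by
      rintro _ ⟨z, hz, rfl⟩
      obtain ⟨K, hK, h⟩ := h4 z hz
      refine mem_iUnion.2 ⟨⟨K, hK⟩, ?_⟩
      rintro ⟨a, ha, haA⟩
      exact h a ha haA)
    (by
      rintro ⟨K, hK⟩ ⟨K', hK'⟩
      obtain ⟨K'', hK'', h1, h2⟩ := hd K hK K' hK'
      refine ⟨⟨K'', hK''⟩, ?_, ?_⟩
      · apply compl_subset_compl.2
        rintro b ⟨a, ha, hab⟩
        exact ⟨a, nhdsKer_mono (image_mono (inter_subset_inter_right _ h1)) ha, hab⟩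
      · apply compl_subset_compl.2
        rintro b ⟨a, ha, hab⟩
        exact ⟨a, nhdsKer_mono (image_mono (inter_subset_inter_right _ h2)) ha, hab⟩)
  obtain ⟨K₂, hK₂, h20, h21⟩ := hd K₀ hK₀ K₁ hK₁
  obtain ⟨z, hzA, hzK⟩ := hAmeet K₂ hK₂
  refine hK₁V ⟨z, ⟨hzA, h20 hzK⟩, rfl⟩ ⟨p z, subset_nhdsKer ⟨z, ⟨hzA, h21 hzK⟩, rfl⟩, ?_⟩
  rw [hmz]
  exact hzA

/-- Retracts of well-filtered spaces are well-filtered. -/
theorem retract (hZ : WF Z) (p : Z → X) (i : X → Z) (hp : Continuous p) (hi : Continuous i)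
    (hpi : ∀ x, p (i x) = x) : WF X := by
  intro F hne hd hF U hU hFU
  obtain ⟨L, hL, hLU⟩ := hZ ((fun K => nhdsKer (i '' K)) '' F) (hne.image _) (by
      rintro _ ⟨K, hK, rfl⟩ _ ⟨K', hK', rfl⟩
      obtain ⟨K'', hK'', h1, h2⟩ := hd K hK K' hK'
      exact ⟨_, ⟨K'', hK'', rfl⟩, nhdsKer_mono (image_mono h1), nhdsKer_mono (image_mono h2)⟩)
    (by
      rintro _ ⟨K, hK, rfl⟩
      exact ⟨((hF K hK).1.image hi).nhdsKer, saturated_nhdsKer _⟩)
    (p ⁻¹' U) (hU.preimage hp) (by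
      intro z hz
      apply hFU
      intro K hK
      obtain ⟨_, ⟨x, hx, rfl⟩, hzx⟩ := mem_nhdsKer_iff_specializes.1 (hz _ ⟨K, hK, rfl⟩)
      have := hzx.map hp
      rw [hpi] at this
      exact (hF K hK).2.mem_of_specializes this hx)
  obtain ⟨K, hK, rfl⟩ := hL
  refine ⟨K, hK, fun x hx => ?_⟩
  have := hLU (subset_nhdsKer ⟨x, hx, rfl⟩)
  rwa [mem_preimage, hpi] at this

end Core

section Scott

variable {P : Type u} {Q : Type v} [PartialOrder P] [PartialOrder Q]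

theorem isClosed_scott_iff {R : Type u} [PartialOrder R] (A : Set R) :
    IsClosed[scott R univ] A ↔ IsLowerSet A ∧ DirSupClosed A := by
  let _ : TopologicalSpace R := scott R univ
  have : IsScott R univ := ⟨rfl⟩
  exact IsScott.isClosed_iff_isLowerSet_and_dirSupClosed

theorem isLUB_left {E : Set Q} {b : Q} (h : IsLUB E b) (hE : E.Nonempty) (a : P) :
    IsLUB ((fun e => (a, e)) '' E) (a, b) := by
  constructor
  · rintro _ ⟨e, he, rfl⟩
    exact ⟨le_rfl, h.1 he⟩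
  · rintro ⟨a', b'⟩ hab
    obtain ⟨e, he⟩ := hE
    refine ⟨(hab ⟨e, he, rfl⟩).1, h.2 fun e' he' => (hab ⟨e', he', rfl⟩).2⟩

theorem isLUB_right {E : Set P} {a : P} (h : IsLUB E a) (hE : E.Nonempty) (b : Q) :
    IsLUB ((fun e => (e, b)) '' E) (a, b) := by
  constructor
  · rintro _ ⟨e, he, rfl⟩
    exact ⟨h.1 he, le_rfl⟩
  · rintro ⟨a', b'⟩ hab
    obtain ⟨e, he⟩ := hE
    refine ⟨h.2 fun e' he' => (hab ⟨e', he', rfl⟩).1, (hab ⟨e, he, rfl⟩).2⟩

theorem continuous_fst_scott :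
    @Continuous (P × Q) P (scott (P × Q) univ) (scott P univ) Prod.fst := by
  let _ := scott (P × Q) univ
  let _ := scott P univ
  rw [continuous_iff_isClosed]
  intro s hs
  rw [isClosed_scott_iff] at hs ⊢
  refine ⟨fun a b hab ha => hs.1 hab.1 ha, ?_⟩
  intro d hd hdne hdd a hda
  refine hs.2 (d := Prod.fst '' d) ?_ (hdne.image _) ?_ (isLUB_prod.1 hda).1
  · rintro _ ⟨e, he, rfl⟩
    exact hd he
  · rintro _ ⟨e, he, rfl⟩ _ ⟨e', he', rfl⟩
    obtain ⟨e'', he'', h1, h2⟩ := hdd e he e' he'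
    exact ⟨_, ⟨e'', he'', rfl⟩, h1.1, h2.1⟩

theorem continuous_snd_scott :
    @Continuous (P × Q) Q (scott (P × Q) univ) (scott Q univ) Prod.snd := by
  let _ := scott (P × Q) univ
  let _ := scott Q univ
  rw [continuous_iff_isClosed]
  intro s hs
  rw [isClosed_scott_iff] at hs ⊢
  refine ⟨fun a b hab ha => hs.1 hab.2 ha, ?_⟩
  intro d hd hdne hdd a hda
  refine hs.2 (d := Prod.snd '' d) ?_ (hdne.image _) ?_ (isLUB_prod.1 hda).2
  · rintro _ ⟨e, he, rfl⟩
    exact hd he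
  · rintro _ ⟨e, he, rfl⟩ _ ⟨e', he', rfl⟩
    obtain ⟨e'', he'', h1, h2⟩ := hdd e he e' he'
    exact ⟨_, ⟨e'', he'', rfl⟩, h1.2, h2.2⟩

theorem continuous_mk_left (a : P) :
    @Continuous Q (P × Q) (scott Q univ) (scott (P × Q) univ) (fun b => (a, b)) := by
  let _ := scott (P × Q) univ
  let _ := scott Q univ
  rw [continuous_iff_isClosed]
  intro s hs
  rw [isClosed_scott_iff] at hs ⊢
  refine ⟨fun b b' hab ha => hs.1 (show (a, b') ≤ (a, b) from ⟨le_rfl, hab⟩) ha, ?_⟩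
  intro d hd hdne hdd b hdb
  refine hs.2 (d := (fun e => (a, e)) '' d) ?_ (hdne.image _) ?_ (isLUB_left hdb hdne a)
  · rintro _ ⟨e, he, rfl⟩
    exact hd he
  · rintro _ ⟨e, he, rfl⟩ _ ⟨e', he', rfl⟩
    obtain ⟨e'', he'', h1, h2⟩ := hdd e he e' he'
    exact ⟨_, ⟨e'', he'', rfl⟩, ⟨le_rfl, h1⟩, ⟨le_rfl, h2⟩⟩

theorem continuous_mk_right (b : Q) :
    @Continuous P (P × Q) (scott P univ) (scott (P × Q) univ) (fun a => (a, b)) := by
  let _ := scott (P × Q) univ
  let _ := scott P univ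
  rw [continuous_iff_isClosed]
  intro s hs
  rw [isClosed_scott_iff] at hs ⊢
  refine ⟨fun a a' hab ha => hs.1 (show (a', b) ≤ (a, b) from ⟨hab, le_rfl⟩) ha, ?_⟩
  intro d hd hdne hdd a hda
  refine hs.2 (d := (fun e => (e, b)) '' d) ?_ (hdne.image _) ?_ (isLUB_right hda hdne b)
  · rintro _ ⟨e, he, rfl⟩
    exact hd he
  · rintro _ ⟨e, he, rfl⟩ _ ⟨e', he', rfl⟩
    obtain ⟨e'', he'', h1, h2⟩ := hdd e he e' he'
    exact ⟨_, ⟨e'', he'', rfl⟩, ⟨h1, le_rfl⟩, ⟨h2, le_rfl⟩⟩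

/-- The slices argument: projections along a Scott compact set are closed maps for the Scott
topology of the product. -/
theorem closed_proj (A : Set (P × Q)) (L : Set P) (hA : IsClosed[scott (P × Q) univ] A)
    (hL : @IsCompact P (scott P univ) L) :
    IsClosed[scott Q univ] {y | ∃ x ∈ L, (x, y) ∈ A} := by
  have hA' := (isClosed_scott_iff A).1 hA
  rw [isClosed_scott_iff]
  constructor
  · rintro b b' hb ⟨x, hx, hxA⟩
    exact ⟨x, hx, hA'.1 (show (x, b') ≤ (x, b) from ⟨le_rfl, hb⟩) hxA⟩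
  · intro E hE hEne hEd b hb
    let _ := scott P univ
    let _ := scott (P × Q) univ
    obtain ⟨x, hxL, hx⟩ := compact_inter_sInter hL ((fun e => {x | (x, e) ∈ A}) '' E)
      (hEne.image _)
      (by
        rintro _ ⟨e, he, rfl⟩ _ ⟨e', he', rfl⟩
        obtain ⟨e'', he'', h1, h2⟩ := hEd e he e' he'
        refine ⟨_, ⟨e'', he'', rfl⟩, fun x hx => ?_, fun x hx => ?_⟩
        · exact hA'.1 (show (x, e) ≤ (x, e'') from ⟨le_rfl, h1⟩) hx
        · exact hA'.1 (show (x, e') ≤ (x, e'') from ⟨le_rfl, h2⟩) hx)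
      (by
        rintro _ ⟨e, he, rfl⟩
        exact @IsClosed.preimage P (P × Q) (scott P univ) (scott (P × Q) univ) _
          (continuous_mk_right e) A hA)
      (by
        rintro _ ⟨e, he, rfl⟩
        obtain ⟨x, hx, hxA⟩ := hE he
        exact ⟨x, hx, hxA⟩)
    refine ⟨x, hxL, hA'.2 (d := (fun e => (x, e)) '' E) ?_ (hEne.image _) ?_
      (isLUB_left hb hEne x)⟩
    · rintro _ ⟨e, he, rfl⟩
      exact hx _ ⟨e, he, rfl⟩
    · rintro _ ⟨e, he, rfl⟩ _ ⟨e', he', rfl⟩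
      obtain ⟨e'', he'', h1, h2⟩ := hEd e he e' he'
      exact ⟨_, ⟨e'', he'', rfl⟩, ⟨le_rfl, h1⟩, ⟨le_rfl, h2⟩⟩

theorem t0_scott (R : Type u) [PartialOrder R] : @T0Space R (scott R univ) := by
  let _ := scott R univ
  have : IsScott R univ := ⟨rfl⟩
  infer_instance

/-- The Scott topology of the product of two posets whose Scott topologies are well-filtered is
well-filtered. -/
theorem wellFiltered_prod (hP : WellFiltered (scott P univ)) (hQ : WellFiltered (scott Q univ)) :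
    WellFiltered (scott (P × Q) univ) :=
  ⟨t0_scott _, @core P Q (P × Q) (scott P univ) (scott Q univ) (scott (P × Q) univ) hP.2 hQ.2
    Prod.fst Prod.snd Prod.mk continuous_fst_scott continuous_snd_scott continuous_mk_left
    continuous_mk_right (fun _ => rfl) closed_proj⟩

theorem wellFiltered_fst [Nonempty Q] (h : WellFiltered (scott (P × Q) univ)) :
    WellFiltered (scott P univ) :=
  ⟨t0_scott _, @retract P (P × Q) (scott P univ) (scott (P × Q) univ) h.2
    Prod.fst (fun a => (a, Classical.arbitrary Q)) continuous_fst_scott (continuous_mk_right _)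
    (fun _ => rfl)⟩

theorem wellFiltered_snd [Nonempty P] (h : WellFiltered (scott (P × Q) univ)) :
    WellFiltered (scott Q univ) :=
  ⟨t0_scott _, @retract Q (P × Q) (scott Q univ) (scott (P × Q) univ) h.2
    Prod.snd (fun b => (Classical.arbitrary P, b)) continuous_snd_scott (continuous_mk_left _)
    (fun _ => rfl)⟩

end Scott

end Pool.Agent.Work.MP_70096d_gt
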