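import Mathlib
import Pool.Agent.Work.MP_70096d_gt.Basic

set_option autoImplicit false

namespace Pool.Agent.Work.MP_70096d_gt

open Set Topology

universe u

/-- Sober spaces are well-filtered. -/
theorem Sober.wellFiltered {X : Type u} {t : TopologicalSpace X} (h : Sober t) :
    WellFiltered t := by
  refine ⟨h.1, ?_⟩
  intro F hne hd hF U hU hFU
  by_contra hcon
  push Not at hcon
  obtain ⟨A, hAmin⟩ : ∃ A, Minimal
      (· ∈ {A : Set X | IsClosed A ∧ A ⊆ Uᶜ ∧ ∀ K ∈ F, (A ∩ K).Nonempty}) A := by
    apply zorn_superset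
    intro c hc hchain
    rcases c.eq_empty_or_nonempty with rfl | hcne
    · refine ⟨Uᶜ, ⟨hU.isClosed_compl, subset_rfl, fun K hK => ?_⟩, by simp⟩
      obtain ⟨z, hz, hzU⟩ := Set.not_subset.1 (hcon K hK)
      exact ⟨z, hzU, hz⟩
    · refine ⟨⋂₀ c, ⟨isClosed_sInter fun B hB => (hc hB).1, ?_, fun K hK => ?_⟩,
        fun B hB => sInter_subset_of_mem hB⟩
      · obtain ⟨B, hB⟩ := hcne
        exact (sInter_subset_of_mem hB).trans (hc hB).2.1
      · rw [inter_comm]
        refine compact_inter_sInter (hF K hK).1 c hcne ?_ (fun B hB => (hc hB).1)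
          (fun B hB => by rw [inter_comm]; exact (hc hB).2.2 K hK)
        intro a ha b hb
        rcases hchain.total ha hb with h | h
        · exact ⟨a, ha, subset_rfl, h⟩
        · exact ⟨b, hb, h, subset_rfl⟩
  obtain ⟨hA, hAU, hAmeet⟩ := hAmin.1
  have hmin : ∀ B : Set X, IsClosed B → B ⊆ A → (∀ K ∈ F, (B ∩ K).Nonempty) → A ⊆ B :=
    fun B hB hBA hBm => hAmin.2 ⟨hB, hBA.trans hAU, hBm⟩ hBA
  have hirr : IsIrreducible A := by
    constructor
    · obtain ⟨K, hK⟩ := hne
      exact (hAmeet K hK).left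
    · rw [isPreirreducible_iff_isClosed_union_isClosed]
      intro Z1 Z2 h1 h2 h12
      by_contra hcon2
      push Not at hcon2
      obtain ⟨h3, h4⟩ := hcon2
      have h5 : ∃ K ∈ F, ¬ ((A ∩ Z1) ∩ K).Nonempty := by
        by_contra h6
        push Not at h6
        exact h3 ((hmin _ (hA.inter h1) inter_subset_left h6).trans inter_subset_right)
      have h7 : ∃ K ∈ F, ¬ ((A ∩ Z2) ∩ K).Nonempty := by
        by_contra h6
        push Not at h6
        exact h4 ((hmin _ (hA.inter h2) inter_subset_left h6).trans inter_subset_right)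
      obtain ⟨K, hK, hK'⟩ := h5
      obtain ⟨L, hL, hL'⟩ := h7
      obtain ⟨M, hM, hMK, hML⟩ := hd K hK L hL
      obtain ⟨z, hzA, hzM⟩ := hAmeet M hM
      rcases h12 hzA with hz | hz
      · exact hK' ⟨z, ⟨hzA, hz⟩, hMK hzM⟩
      · exact hL' ⟨z, ⟨hzA, hz⟩, hML hzM⟩
  obtain ⟨x, hx⟩ := h.2 A hirr hA
  have hxA : x ∈ A := hx ▸ subset_closure rfl
  refine hAU hxA (hFU ?_)
  intro K hK
  obtain ⟨z, hzA, hzK⟩ := hAmeet K hK
  rw [← hx] at hzA
  exact (hF K hK).2.mem_of_specializes (specializes_iff_mem_closure.2 hzA) hzK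

/-- Johnstone's dcpo with a top element added. -/
inductive JT : Type
  | fin (j k : ℕ) : JT
  | inf (m : ℕ) : JT
  | top : JT

namespace JT

/-- The order of Johnstone's dcpo with a top element added. -/
def le : JT → JT → Prop
  | fin j k, fin j' k' => j = j' ∧ k ≤ k'
  | fin j k, inf m => j = m ∨ k ≤ m
  | inf _, fin _ _ => False
  | inf m, inf n => m = n
  | _, top => True
  | top, fin _ _ => False
  | top, inf _ => False

instance : PartialOrder JT where
  le := le
  le_refl a := by cases a <;> simp [le]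
  le_trans a b c h1 h2 := by
    cases a <;> cases b <;> cases c <;> simp [le] at * <;> omega
  le_antisymm a b h1 h2 := by
    cases a <;> cases b <;> simp [le] at * <;> omega

@[simp] theorem fin_le_fin (j k j' k' : ℕ) : fin j k ≤ fin j' k' ↔ j = j' ∧ k ≤ k' := Iff.rfl
@[simp] theorem fin_le_inf (j k m : ℕ) : fin j k ≤ inf m ↔ j = m ∨ k ≤ m := Iff.rfl
@[simp] theorem inf_le_fin (j k m : ℕ) : ¬ inf m ≤ fin j k := fun h => h
@[simp] theorem inf_le_inf (m n : ℕ) : inf m ≤ inf n ↔ m = n := Iff.rfl
@[simp] theorem le_top' (a : JT) : a ≤ top := by cases a <;> exact trivial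
@[simp] theorem top_le_fin (j k : ℕ) : ¬ top ≤ fin j k := fun h => h
@[simp] theorem top_le_inf (m : ℕ) : ¬ top ≤ inf m := fun h => h

/-- The structure of directed sets. -/
theorem dir_cases (D : Set JT) (hne : D.Nonempty) (hd : DirectedOn (· ≤ ·) D) :
    (∃ g ∈ D, ∀ d ∈ D, d ≤ g) ∨ ∃ j, (∀ d ∈ D, ∃ k, d = fin j k) ∧ ∀ N, ∃ k ≥ N, fin j k ∈ D := by
  by_cases htop : top ∈ D
  · exact Or.inl ⟨top, htop, fun d _ => le_top' d⟩
  by_cases hinf : ∃ m, inf m ∈ D
  · obtain ⟨m, hm⟩ := hinf
    refine Or.inl ⟨inf m, hm, fun d hdD => ?_⟩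
    obtain ⟨e, he, h1, h2⟩ := hd _ hm _ hdD
    cases e with
    | fin j k => exact absurd h1 (inf_le_fin j k m)
    | inf n => rw [inf_le_inf] at h1; subst h1; exact h2
    | top => exact absurd he htop
  · push Not at hinf
    obtain ⟨d0, hd0⟩ := hne
    cases d0 with
    | inf m => exact absurd hd0 (hinf m)
    | top => exact absurd hd0 htop
    | fin j k0 =>
      have hcol : ∀ d ∈ D, ∃ k, d = fin j k := by
        intro d hdD
        obtain ⟨e, he, h1, h2⟩ := hd _ hd0 _ hdD
        cases e with
        | inf m => exact absurd he (hinf m)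
        | top => exact absurd he htop
        | fin j' k' =>
          cases d with
          | inf m => exact absurd hdD (hinf m)
          | top => exact absurd hdD htop
          | fin j'' k'' =>
            simp only [fin_le_fin] at h1 h2
            exact ⟨k'', by rw [h2.1, h1.1]⟩
      by_cases hb : ∀ N, ∃ k ≥ N, fin j k ∈ D
      · exact Or.inr ⟨j, hcol, hb⟩
      · push Not at hb
        obtain ⟨N, hN⟩ := hb
        left
        -- the set of heights is bounded, so it has a maximum
        have hfin : {k | fin j k ∈ D}.Finite := by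
          refine (Set.finite_Iio N).subset ?_
          intro k hk
          by_contra hkN
          exact hN k (not_lt.1 hkN) hk
        obtain ⟨k1, hk1, hk1max⟩ := hfin.exists_maximalFor id _ ⟨k0, hd0⟩
        refine ⟨fin j k1, hk1, fun d hdD => ?_⟩
        obtain ⟨k, rfl⟩ := hcol d hdD
        simp only [fin_le_fin, true_and]
        by_contra hlt
        have := hk1max hdD (by simp only [id]; omega)
        simp only [id] at this
        omega

theorem isLUB_column (D : Set JT) (j : ℕ) (h1 : ∀ d ∈ D, ∃ k, d = fin j k)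
    (h2 : ∀ N, ∃ k ≥ N, fin j k ∈ D) : IsLUB D (inf j) := by
  constructor
  · intro d hd
    obtain ⟨k, rfl⟩ := h1 d hd
    simp
  · intro u hu
    cases u with
    | fin j' k' =>
      obtain ⟨k, hk, hkD⟩ := h2 (k' + 1)
      have := hu hkD
      simp only [fin_le_fin] at this
      omega
    | inf m =>
      obtain ⟨k, hk, hkD⟩ := h2 (m + 1)
      have := hu hkD
      simp only [fin_le_inf] at this
      rw [inf_le_inf]
      omega
    | top => simp

theorem isDcpo : IsDcpo JT := by
  intro D hne hd
  rcases dir_cases D hne hd with ⟨g, hg, hgD⟩ | ⟨j, h1, h2⟩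
  · exact ⟨g, fun d hdD => hgD d hdD, fun u hu => hu hg⟩
  · exact ⟨inf j, isLUB_column D j h1 h2⟩

theorem isClosed_iff (C : Set JT) : IsClosed[scott JT univ] C ↔
    IsLowerSet C ∧ ∀ j, (∀ k, fin j k ∈ C) → inf j ∈ C := by
  rw [isClosed_scott_iff]
  refine and_congr_right fun hlow => ⟨?_, ?_⟩
  · intro h j hj
    refine h (d := Set.range (fun k => fin j k)) ?_ (Set.range_nonempty _) ?_
      (isLUB_column _ j ?_ ?_)
    · rintro _ ⟨k, rfl⟩
      exact hj k
    · rintro _ ⟨k, rfl⟩ _ ⟨k', rfl⟩
      exact ⟨fin j (max k k'), ⟨_, rfl⟩, by simp, by simp⟩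
    · rintro _ ⟨k, rfl⟩
      exact ⟨k, rfl⟩
    · intro N
      exact ⟨N, le_rfl, N, rfl⟩
  · intro h D hDC hne hd a ha
    rcases dir_cases D hne hd with ⟨g, hg, hgD⟩ | ⟨j, h1, h2⟩
    · exact hlow (ha.2 (fun d hdD => hgD d hdD)) (hDC hg)
    · have := ha.unique (isLUB_column D j h1 h2)
      subst this
      apply h
      intro k
      obtain ⟨k', hk', hkD⟩ := h2 k
      exact hlow (by simp [hk'] : fin j k ≤ fin j k') (hDC hkD)

/-- A Scott closed set that misses one of the elements `inf m` misses almost all of them. -/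
theorem bounded_of_closed {C : Set JT} (hC : IsClosed[scott JT univ] C)
    (hm : ∃ m, inf m ∉ C) : ∃ N, ∀ m ≥ N, inf m ∉ C := by
  by_contra hcon
  push Not at hcon
  rw [isClosed_iff] at hC
  obtain ⟨m, hm⟩ := hm
  refine hm (hC.2 m fun k => ?_)
  obtain ⟨n, hn, hnC⟩ := hcon k
  exact hC.1 (by simp [hn] : fin m k ≤ inf n) hnC

/-- The compatible topology: the closed sets are the whole space and the Scott closed sets
that miss some `inf m`. -/
@[instance_reducible]
def tau : TopologicalSpace JT where
  IsOpen U := U = ∅ ∨ (IsOpen[scott JT univ] U ∧ ∃ m, inf m ∈ U)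
  isOpen_univ := Or.inr ⟨@isOpen_univ JT (scott JT univ), 0, trivial⟩
  isOpen_inter s t hs ht := by
    rcases hs with rfl | ⟨hs, m, hm⟩
    · simp
    rcases ht with rfl | ⟨ht, n, hn⟩
    · simp
    right
    refine ⟨@IsOpen.inter JT (scott JT univ) s t hs ht, ?_⟩
    obtain ⟨N, hN⟩ := bounded_of_closed (C := sᶜ)
      (@IsOpen.isClosed_compl JT (scott JT univ) s hs) ⟨m, fun h => h hm⟩
    obtain ⟨N', hN'⟩ := bounded_of_closed (C := tᶜ)
      (@IsOpen.isClosed_compl JT (scott JT univ) t ht) ⟨n, fun h => h hn⟩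
    exact ⟨max N N', not_not.1 (hN _ (le_max_left _ _)), not_not.1 (hN' _ (le_max_right _ _))⟩
  isOpen_sUnion s hs := by
    by_cases h : ∃ t ∈ s, t ≠ ∅
    · obtain ⟨t, hts, htne⟩ := h
      right
      constructor
      · apply @isOpen_sUnion JT (scott JT univ)
        intro t ht
        rcases hs t ht with rfl | h
        · exact @isOpen_empty JT (scott JT univ)
        · exact h.1
      · rcases hs t hts with rfl | ⟨_, m, hm⟩
        · exact absurd rfl htne
        · exact ⟨m, t, hts, hm⟩
    · push Not at h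
      left
      rw [Set.sUnion_eq_empty]
      exact h

theorem isClosed_tau_iff (C : Set JT) : IsClosed[tau] C ↔
    C = univ ∨ (IsClosed[scott JT univ] C ∧ ∃ m, inf m ∉ C) := by
  rw [← @isOpen_compl_iff JT C tau, ← @isOpen_compl_iff JT C (scott JT univ)]
  change (Cᶜ = ∅ ∨ _) ↔ _
  rw [Set.compl_empty_iff]
  rfl

theorem isClosed_Iic_scott (x : JT) : IsClosed[scott JT univ] (Iic x) := by
  rw [isClosed_iff]
  refine ⟨isLowerSet_Iic x, fun j hj => ?_⟩
  cases x with
  | fin j' k' =>
    have := hj (k' + 1)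
    simp only [mem_Iic, fin_le_fin] at this
    omega
  | inf m =>
    have := hj (m + 1)
    simp only [mem_Iic, fin_le_inf] at this
    simp only [mem_Iic, inf_le_inf]
    omega
  | top => simp

theorem compatible_tau : Compatible tau := by
  intro x
  apply Set.Subset.antisymm
  · apply @closure_minimal JT tau
    · simp
    · rw [isClosed_tau_iff]
      cases x with
      | fin j k => exact Or.inr ⟨isClosed_Iic_scott _, 0, by simp⟩
      | inf m => exact Or.inr ⟨isClosed_Iic_scott _, m + 1, by simp⟩
      | top => left; ext a; simp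
  · intro y hy
    have h1 : IsClosed[tau] (@closure JT tau {x}) := @isClosed_closure JT tau {x}
    have h2 : x ∈ @closure JT tau {x} := @subset_closure JT tau {x} x rfl
    rw [isClosed_tau_iff] at h1
    rcases h1 with h1 | h1
    · rw [h1]; trivial
    · exact ((isClosed_iff _).1 h1.1).1 hy h2

theorem t0_tau : @T0Space JT tau := by
  let _ := tau
  refine (t0Space_iff_inseparable JT).2 fun x y h => ?_
  rw [inseparable_iff_closure_eq] at h
  have h1 := compatible_tau x
  have h2 := compatible_tau y
  rw [h1, h2] at h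
  exact Iic_injective h

theorem sober_tau : Sober tau := by
  refine ⟨t0_tau, ?_⟩
  intro S hirr hcl
  rcases (isClosed_tau_iff S).1 hcl with rfl | ⟨hS, hm⟩
  · refine ⟨top, ?_⟩
    rw [compatible_tau]
    ext a
    simp
  have hS' := (isClosed_iff S).1 hS
  have htop : top ∉ S := fun h => by
    obtain ⟨m, hm⟩ := hm
    exact hm (hS'.1 (le_top' (inf m)) h)
  have hpre := (@isPreirreducible_iff_isClosed_union_isClosed JT tau S).1 hirr.2
  by_cases hR : ∃ m, inf m ∈ S
  · obtain ⟨m, hmS⟩ := hR
    obtain ⟨N, hN⟩ := bounded_of_closed hS hm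
    refine ⟨inf m, ?_⟩
    rw [compatible_tau]
    have hZ2 : IsClosed[tau] (S \ ({inf m} ∪ {x | ∃ k ≥ N, x = fin m k})) := by
      rw [isClosed_tau_iff]
      right
      refine ⟨?_, m, fun h => h.2 (Or.inl rfl)⟩
      rw [isClosed_iff]
      constructor
      · rintro x y hyx ⟨hxS, hx⟩
        refine ⟨hS'.1 hyx hxS, ?_⟩
        rintro (rfl | ⟨k, hk, rfl⟩)
        · apply hx
          left
          cases x with
          | fin j k => exact absurd hyx (inf_le_fin _ _ _)
          | inf n => rw [inf_le_inf] at hyx; subst hyx; rfl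
          | top => exact absurd hxS htop
        · apply hx
          cases x with
          | fin j k' =>
            rw [fin_le_fin] at hyx
            exact Or.inr ⟨k', by omega, by rw [hyx.1]⟩
          | inf n =>
            rw [fin_le_inf] at hyx
            rcases hyx with rfl | h
            · exact Or.inl rfl
            · exact absurd hxS (hN n (by omega))
          | top => exact absurd hxS htop
      · intro j hj
        by_cases hjm : j = m
        · subst hjm
          exact absurd (Or.inr ⟨N, le_rfl, rfl⟩) (hj N).2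
        · refine ⟨hS'.2 j fun k => (hj k).1, ?_⟩
          rintro (h | ⟨k, _, h⟩)
          · exact hjm (by injection h)
          · cases h
    have hZ1 : IsClosed[tau] (Iic (inf m)) := by
      rw [← compatible_tau]
      exact @isClosed_closure JT tau {inf m}
    rcases hpre _ _ hZ1 hZ2 (by
      intro x hx
      by_cases hxx : x ∈ ({inf m} ∪ {x | ∃ k ≥ N, x = fin m k} : Set JT)
      · left
        rcases hxx with rfl | ⟨k, _, rfl⟩
        · exact Set.mem_Iic.2 (le_refl (inf m))
        · simp
      · exact Or.inr ⟨hx, hxx⟩) with h | h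
    · exact Set.Subset.antisymm (fun x hx => hS'.1 hx hmS) h
    · exact absurd (Or.inl rfl) (h hmS).2
  · push Not at hR
    obtain ⟨x0, hx0⟩ := hirr.1
    cases x0 with
    | inf m => exact absurd hx0 (hR m)
    | top => exact absurd hx0 htop
    | fin j k0 =>
      have hfin : {k | fin j k ∈ S}.Finite := by
        by_contra hinf
        apply hR j
        apply hS'.2
        intro k
        obtain ⟨k', hk', hkk'⟩ := Set.Infinite.exists_gt (s := {k | fin j k ∈ S}) hinf k
        exact hS'.1 (by simp [hkk'.le] : fin j k ≤ fin j k') hk'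
      obtain ⟨k1, hk1, hk1max⟩ := hfin.exists_maximalFor id _ ⟨k0, hx0⟩
      refine ⟨fin j k1, ?_⟩
      rw [compatible_tau]
      have hZ1 : IsClosed[tau] (Iic (fin j k1)) := by
        rw [← compatible_tau]
        exact @isClosed_closure JT tau {fin j k1}
      have hZ2 : IsClosed[tau] (S \ {x | ∃ k, x = fin j k}) := by
        rw [isClosed_tau_iff]
        right
        refine ⟨?_, 0, fun h => hR 0 h.1⟩
        rw [isClosed_iff]
        constructor
        · rintro x y hyx ⟨hxS, hx⟩
          refine ⟨hS'.1 hyx hxS, ?_⟩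
          rintro ⟨k, rfl⟩
          apply hx
          cases x with
          | fin j' k' =>
            rw [fin_le_fin] at hyx
            exact ⟨k', by rw [hyx.1]⟩
          | inf n => exact absurd hxS (hR n)
          | top => exact absurd hxS htop
        · intro j' hj'
          exact absurd (hS'.2 j' fun k => (hj' k).1) (hR j')
      rcases hpre _ _ hZ1 hZ2 (by
        intro x hx
        by_cases hxx : ∃ k, x = fin j k
        · left
          obtain ⟨k, rfl⟩ := hxx
          simp only [mem_Iic, fin_le_fin, true_and]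
          by_contra hlt
          have := hk1max hx (by simp only [id]; omega)
          simp only [id] at this
          omega
        · exact Or.inr ⟨hx, hxx⟩) with h | h
      · exact Set.Subset.antisymm (fun x hx => hS'.1 hx hk1) h
      · exact absurd ⟨k1, rfl⟩ (h hk1).2

theorem saturated_of_isUpperSet {K : Set JT} (hK : IsUpperSet K) :
    Saturated (scott JT univ) K := by
  refine ⟨{U | ∃ x ∉ K, U = (Iic x)ᶜ}, ?_, ?_⟩
  · rintro _ ⟨x, _, rfl⟩
    exact @IsClosed.isOpen_compl JT (scott JT univ) _ (isClosed_Iic_scott x)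
  · ext y
    constructor
    · rintro hy _ ⟨x, hx, rfl⟩ hyx
      exact hx (hK hyx hy)
    · intro hy
      by_contra hyK
      exact hy _ ⟨y, hyK, rfl⟩ (Set.mem_Iic.2 (le_refl y))

theorem isCompact_tail (n : ℕ) :
    @IsCompact JT (scott JT univ) ({x | ∃ m ≥ n, x = inf m} ∪ {top}) := by
  let _ := scott JT univ
  refine isCompact_of_finite_subcover ?_
  intro ι U hU hcov
  obtain ⟨i0, hi0⟩ := mem_iUnion.1 (hcov (Or.inl ⟨n, le_rfl, rfl⟩))
  obtain ⟨N, hN⟩ := bounded_of_closed (C := (U i0)ᶜ) (hU i0).isClosed_compl ⟨n, fun h => h hi0⟩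
  have hfin : (({x | ∃ m ≥ n, x = inf m} ∪ {top}) \ U i0 : Set JT).Finite := by
    refine (((Set.finite_Iio N).image inf).union (Set.finite_singleton top)).subset ?_
    rintro x ⟨hx | hx, hxU⟩
    · obtain ⟨m, hm, rfl⟩ := hx
      left
      refine ⟨m, ?_, rfl⟩
      by_contra hmN
      exact hN m (not_lt.1 hmN) hxU
    · exact Or.inr hx
  obtain ⟨t, ht⟩ := hfin.isCompact.elim_finite_subcover U hU (sdiff_subset.trans hcov)
  classical
  refine ⟨insert i0 t, ?_⟩
  intro x hx
  by_cases hxU : x ∈ U i0
  · exact mem_iUnion₂.2 ⟨i0, Finset.mem_insert_self _ _, hxU⟩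
  · obtain ⟨i, hi, hxi⟩ := mem_iUnion₂.1 (ht ⟨hx, hxU⟩)
    exact mem_iUnion₂.2 ⟨i, Finset.mem_insert_of_mem hi, hxi⟩

theorem not_wellFiltered : ¬ WellFiltered (scott JT univ) := by
  intro h
  obtain ⟨K, ⟨n, rfl⟩, hK⟩ := h.2
    (Set.range fun n : ℕ => ({x | ∃ m ≥ n, x = inf m} ∪ {top} : Set JT))
    (Set.range_nonempty _)
    (by
      rintro _ ⟨n, rfl⟩ _ ⟨n', rfl⟩
      refine ⟨_, ⟨max n n', rfl⟩, ?_, ?_⟩
      · rintro x (⟨m, hm, rfl⟩ | hx)
        · exact Or.inl ⟨m, (le_max_left _ _).trans hm, rfl⟩
        · exact Or.inr hx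
      · rintro x (⟨m, hm, rfl⟩ | hx)
        · exact Or.inl ⟨m, (le_max_right _ _).trans hm, rfl⟩
        · exact Or.inr hx)
    (by
      rintro _ ⟨n, rfl⟩
      refine ⟨isCompact_tail n, saturated_of_isUpperSet ?_⟩
      rintro x y hxy (⟨m, hm, rfl⟩ | rfl)
      · cases y with
        | fin j k => exact absurd hxy (inf_le_fin _ _ _)
        | inf m' => rw [inf_le_inf] at hxy; subst hxy; exact Or.inl ⟨m, hm, rfl⟩
        | top => exact Or.inr rfl
      · cases y with
        | fin j k => exact absurd hxy (top_le_fin _ _)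
        | inf m' => exact absurd hxy (top_le_inf _)
        | top => exact Or.inr rfl)
    {top}
    (by
      rw [← @isClosed_compl_iff JT (scott JT univ), isClosed_iff]
      refine ⟨?_, fun j _ => by simp⟩
      rintro x y hyx hx rfl
      apply hx
      cases x with
      | fin j k => exact absurd hyx (top_le_fin _ _)
      | inf m => exact absurd hyx (top_le_inf _)
      | top => rfl)
    (by
      intro x hx
      cases x with
      | fin j k =>
        rcases hx _ ⟨0, rfl⟩ with ⟨m, _, h⟩ | h
        · cases h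
        · cases h
      | inf m =>
        rcases hx _ ⟨m + 1, rfl⟩ with ⟨m', hm', h⟩ | h
        · injection h with h
          omega
        · cases h
      | top => rfl)
  have := hK (Or.inl ⟨n, le_rfl, rfl⟩ : inf n ∈ _)
  cases this

end JT

end Pool.Agent.Work.MP_70096d_gt
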